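import Pool.Agent.Helper47.BR.Defs

/-!
# BR, piece BC
Base change of central simple algebras, and of representations. Simplicity of `F ⊗ A`: take
a nonzero element of the ideal of minimal length `∑ c_i ⊗ a_i` with `a_i` independent, make
`a_1 = 1` (`A` is simple), commute with `1 ⊗ a`.
-/

set_option autoImplicit false

namespace Pool.Agent.Helper47.BR

open NumberField Polynomial Pool.Agent.Helper4.CB Pool.Agent.Helper69.CB Pool.Agent.Helper65.CL
  TensorProduct

/-- **BC1** -/
theorem CS.baseChange {K A : Type} [Field K] [Ring A] [Algebra K A] {m : ℕ} (hA : CS K A m)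
    (F : Type) [Field F] [Algebra K F] : CS F (F ⊗[K] A) m := by
  sorry

/-- **BC2** -/
theorem rep_baseChange {K A F F' : Type} [Field K] [Ring A] [Algebra K A] [Field F] [Algebra K F]
    [Field F'] [Algebra K F'] [Algebra F F'] [IsScalarTower K F F'] {m : ℕ} :
    Rep F (F ⊗[K] A) F' m ↔ Rep K A F' m := by
  sorry

/-- **BC3** -/
theorem Rep.mono {K A F F' : Type} [Field K] [Ring A] [Algebra K A] [Field F] [Algebra K F]
    [Field F'] [Algebra K F'] {m : ℕ} (h : Rep K A F m) (φ : F →+* F')
    (hφ : ∀ x : K, φ (algebraMap K F x) = algebraMap K F' x) : Rep K A F' m := by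
  sorry

/-- **BC4** -/
theorem Rep.congr {K A B F : Type} [Field K] [Ring A] [Algebra K A] [Ring B] [Algebra K B]
    [Field F] [Algebra K F] {m : ℕ} (e : A ≃ₐ[K] B) (h : Rep K A F m) : Rep K B F m := by
  sorry

end Pool.Agent.Helper47.BR
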