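import Pool.Agent.Helper47.BR.Defs

/-!
# BR, piece CMP
Extension of a uniformly continuous ring homomorphism to the completions.
-/

set_option autoImplicit false

namespace Pool.Agent.Helper47.BR

open NumberField Polynomial Pool.Agent.Helper4.CB Pool.Agent.Helper69.CB Pool.Agent.Helper65.CL
  TensorProduct

/-- **CMP** -/
theorem exists_completion_map (K L : Type) [Field K] [NumberField K] [Field L] [NumberField L]
    [Algebra K L] (p : Pl K) (w : Pl L) (h : Over p w) :
    ∃ φ : Cw K p →+* Cw L w, ∀ x : K, φ (algebraMap K _ x) = algebraMap L _ (algebraMap K L x) := by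
  sorry

/-- **CMP'** -/
theorem exists_over (K L : Type) [Field K] [NumberField K] [Field L] [NumberField L]
    [Algebra K L] (w : Pl L) : ∃ p : Pl K, Over p w := by
  sorry

end Pool.Agent.Helper47.BR
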