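import Pool.Agent.Helper47.BR.Defs

/-!
# BR, piece FLD
`L = K(ζ_E, i)`, `E = 4 * ∏ l ^ (J + k) * ∏_(p | m) (Np ^ m - 1)`, `l ^ k ≥ m`. For `p` not bad and `p ∤ m`:
`v_l(Np - 1) = s`, `1 ≤ s < J` (`s ≥ 2` if `l = 2`), `l ^ (J + k) ∣ Np ^ f - 1`, `v_l(Np ^ f - 1) = s + v_l(f)`,
so `l ^ (k + 1) ∣ f`. For `p | m`: `Np ^ m - 1 ∣ Np ^ f - 1`.
-/

set_option autoImplicit false

namespace Pool.Agent.Helper47.BR

open NumberField Polynomial Pool.Agent.Helper4.CB Pool.Agent.Helper69.CB Pool.Agent.Helper65.CL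
  TensorProduct

/-- **FLD** -/
theorem exists_field (K : Type) [Field K] [NumberField K] (m J : ℕ) (hm : 1 ≤ m) (hJ : 2 ≤ J)
    (hζ : ∀ l : ℕ, l.Prime → l ∣ m → ∃ ζ : K, IsPrimitiveRoot ζ l)
    (hi : 2 ∣ m → ∃ i : K, i ^ 2 = -1) :
    ∃ (L : Type) (_ : Field L) (_ : NumberField L) (_ : Algebra K L), IsTotallyComplex L ∧
      ∀ (p : Pl K) (w : Pl L), Over p w → ¬ Bad m.primeFactors J p →
        ∃ f : ℕ, m ∣ f ∧ f ≠ 0 ∧ nm w = nm p ^ f := by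
  sorry

end Pool.Agent.Helper47.BR
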