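import Pool.Agent.Helper47.BR.Defs

/-!
# BR, piece G1
The left regular representation of `M_d(F)` is `d` copies of the standard one; `ρ` induces
`F ⊗ D ≃ M_d(F)` (simplicity and dimension).
-/

set_option autoImplicit false

namespace Pool.Agent.Helper47.BR

open NumberField Polynomial Pool.Agent.Helper4.CB Pool.Agent.Helper69.CB Pool.Agent.Helper65.CL
  TensorProduct

/-- **G1** -/
theorem charpoly_rep {L D F : Type} [Field L] [Ring D] [Algebra L D] [Field F] [Algebra L F]
    {d : ℕ} (hD : CS L D d) (b : Module.Basis (Ix d) L D) (ρ : D →ₐ[L] Matrix (Fin d) (Fin d) F)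
    (z : D) : (Algebra.leftMulMatrix b z).charpoly.map (algebraMap L F) = (ρ z).charpoly ^ d := by
  sorry

/-- **G1'** -/
theorem det_cm_ne_zero {L D F : Type} [Field L] [Ring D] [Algebra L D] [Field F] [Algebra L F]
    {d : ℕ} (hD : CS L D d) (b : Module.Basis (Ix d) L D) (ρ : D →ₐ[L] Matrix (Fin d) (Fin d) F) :
    (cm ρ b).det ≠ 0 := by
  sorry

/-- **G1''** -/
theorem trace_rep {L D F : Type} [Field L] [Ring D] [Algebra L D] [Field F] [Algebra L F]
    {d : ℕ} (hD : CS L D d) (b : Module.Basis (Ix d) L D) (ρ : D →ₐ[L] Matrix (Fin d) (Fin d) F)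
    (z : D) : algebraMap L F (Algebra.leftMulMatrix b z).trace = d * (ρ z).trace := by
  sorry

end Pool.Agent.Helper47.BR
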