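import Pool.Agent.Helper47.BR.Defs
import Pool.Agent.Helper47.BR.St.G1

/-!
# BR, piece G2
`tr(b_i b_j) = d * Tr(ρ b_i * ρ b_j)`, Gram matrix of the trace form of `M_d` is a permutation matrix.
-/

set_option autoImplicit false

namespace Pool.Agent.Helper47.BR

open NumberField Polynomial Pool.Agent.Helper4.CB Pool.Agent.Helper69.CB Pool.Agent.Helper65.CL
  TensorProduct

/-- **G2** -/
theorem det_tm {L D F : Type} [Field L] [Ring D] [Algebra L D] [Field F] [Algebra L F]
    {d : ℕ} (hD : CS L D d) (b : Module.Basis (Ix d) L D) (ρ : D →ₐ[L] Matrix (Fin d) (Fin d) F) :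
    (cm ρ b).det ^ 2 * (d : F) ^ (d ^ 2) = algebraMap L F (tm b).det ∨
      (cm ρ b).det ^ 2 * (d : F) ^ (d ^ 2) = -algebraMap L F (tm b).det := by
  sorry

end Pool.Agent.Helper47.BR
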