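import Pool.Agent.Helper47.BR.Defs
import Pool.Agent.Helper47.BR.St.G1

/-!
# BR, piece G3
Finitely many nonzero numbers are units outside a finite set of places. G3b: `b' = b / B ^ n` has the
same good integers, and for `n` large the inverse matrices of the finitely many `cm ρ_w b'` are
integral.
-/

set_option autoImplicit false

namespace Pool.Agent.Helper47.BR

open NumberField Polynomial Pool.Agent.Helper4.CB Pool.Agent.Helper69.CB Pool.Agent.Helper65.CL
  TensorProduct

/-- **G3a** -/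
theorem exists_gd {L D : Type} [Field L] [NumberField L] [Ring D] [Algebra L D] {d : ℕ}
    (hD : CS L D d) (b : Module.Basis (Ix d) L D) : ∃ B : ℕ, Gd b B := by
  sorry

/-- **G3b** -/
theorem exists_scale {L D : Type} [Field L] [NumberField L] [Ring D] [Algebra L D] {d : ℕ}
    (hD : CS L D d) (b : Module.Basis (Ix d) L D) {B : ℕ} (hB : Gd b B)
    (ρ : ∀ w : Pl L, D →ₐ[L] Matrix (Fin d) (Fin d) (Cw L w)) :
    ∃ b' : Module.Basis (Ix d) L D, Gd b' B ∧
      ∀ w : Pl L, (B : 𝓞 L) ∈ w.asIdeal → ∀ i j, ‖(cm (ρ w) b')⁻¹ i j‖ ≤ 1 := by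
  sorry

/-- **G3c** -/
theorem finite_places {L : Type} [Field L] [NumberField L] {B : ℕ} (hB : 1 ≤ B) :
    {w : Pl L | (B : 𝓞 L) ∈ w.asIdeal}.Finite := by
  sorry

end Pool.Agent.Helper47.BR
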