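import Pool.Agent.Helper47.BR.Defs

/-!
# BR, piece G4
The subgroup is the preimage of `Ψ O_w ^ N`, `Ψ = Φ⁻¹` integral, in `O_w ^ N`; index
`[O_w ^ N : Ψ O_w ^ N] = ‖det Ψ‖⁻¹` (Smith normal form over the discrete valuation ring, or induction).
-/

set_option autoImplicit false

namespace Pool.Agent.Helper47.BR

open NumberField Polynomial Pool.Agent.Helper4.CB Pool.Agent.Helper69.CB Pool.Agent.Helper65.CL
  TensorProduct

/-- the vectors of `(𝓞 L) ^ ι` with `Φ y` integral -/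
def LatW {L : Type} [Field L] [NumberField L] (w : Pl L) {ι : Type} [Fintype ι]
    (Φ : Matrix ι ι (Cw L w)) : Set (ι → 𝓞 L) :=
  {y | ∀ i, ‖∑ j, Φ i j * algebraMap L (Cw L w) (y j)‖ ≤ 1}

/-- **G4** -/
theorem index_latW {L : Type} [Field L] [NumberField L] (w : Pl L) {ι : Type} [Fintype ι]
    [DecidableEq ι] (Φ : Matrix ι ι (Cw L w)) (hdet : Φ.det ≠ 0) (hinv : ∀ i j, ‖Φ⁻¹ i j‖ ≤ 1) :
    ∃ G : AddSubgroup (ι → 𝓞 L), (∀ y, y ∈ G ↔ y ∈ LatW w Φ) ∧ G.index ≠ 0 ∧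
      (G.index : ℝ) ≤ ‖Φ.det‖ := by
  sorry

end Pool.Agent.Helper47.BR
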