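import Pool.Agent.Helper47.BR.Defs

/-!
# BR, piece G5
Minkowski's convex body theorem (Mathlib) for the lattice `G` in `∏_v ℂ ^ ι`, or the pigeonhole
principle as in Helper35 / Helper69 / Helper3.
-/

set_option autoImplicit false

namespace Pool.Agent.Helper47.BR

open NumberField Polynomial Pool.Agent.Helper4.CB Pool.Agent.Helper69.CB Pool.Agent.Helper65.CL
  TensorProduct

/-- **G5** -/
theorem mink_sub (L : Type) [Field L] [NumberField L] (hL : IsTotallyComplex L) (ι : Type)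
    [Fintype ι] [DecidableEq ι] : ∃ C : ℝ, 0 < C ∧ ∀ (G : AddSubgroup (ι → 𝓞 L)), G.index ≠ 0 →
      ∀ Ψ : (L →+* ℂ) → Matrix ι ι ℂ, (∀ σ, (Ψ σ).det ≠ 0) →
      (∀ σ i j, Ψ (ComplexEmbedding.conjugate σ) i j = (starRingEnd ℂ) (Ψ σ i j)) →
      ∀ r : ι → ℝ, (∀ i, 0 < r i) →
      C * G.index * ∏ σ : L →+* ℂ, ‖(Ψ σ).det‖ ≤ (∏ i, r i) ^ Module.finrank ℚ L →
      ∃ y ∈ G, y ≠ 0 ∧ ∀ (σ : L →+* ℂ) (i : ι), ‖∑ j, Ψ σ i j * σ (y j : L)‖ ≤ r i := by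
  sorry

end Pool.Agent.Helper47.BR
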