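import Pool.Agent.Helper47.BR.Defs

/-!
# BR, piece G6
Mathlib: `NumberField.prod_abs_eq_one` (product formula).
-/

set_option autoImplicit false

namespace Pool.Agent.Helper47.BR

open NumberField Polynomial Pool.Agent.Helper4.CB Pool.Agent.Helper69.CB Pool.Agent.Helper65.CL
  TensorProduct

/-- **G6** -/
theorem prod_formula {L : Type} [Field L] [NumberField L] (x : L) (hx : x ≠ 0)
    (S : Finset (Pl L)) (hS : ∀ w ∉ S, nw w x = 1) :
    (∏ w ∈ S, nw w x) * ∏ σ : L →+* ℂ, ‖σ x‖ = 1 := by
  sorry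

/-- **G6'**: an integral number all of whose conjugates are less than one is zero -/
theorem eq_zero_of_small {L : Type} [Field L] [NumberField L] (x : L)
    (h1 : ∀ w : Pl L, nw w x ≤ 1) (h2 : ∀ σ : L →+* ℂ, ‖σ x‖ < 1) : x = 0 := by
  sorry

end Pool.Agent.Helper47.BR
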