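import Pool.Agent.Helper47.BR.Defs

/-!
# BR, piece G7
Coefficients are algebraic integers with bounded conjugates (`Embeddings.finite_of_norm_le`).
-/

set_option autoImplicit false

namespace Pool.Agent.Helper47.BR

open NumberField Polynomial Pool.Agent.Helper4.CB Pool.Agent.Helper69.CB Pool.Agent.Helper65.CL
  TensorProduct

/-- **G7** -/
theorem finite_polys (L : Type) [Field L] [NumberField L] (n : ℕ) (R : ℝ) :
    ∃ S : Finset L[X], ∀ f : L[X], f.Monic → f.natDegree = n →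
      (∀ i, ∀ w : Pl L, nw w (f.coeff i) ≤ 1) → (∀ i, ∀ σ : L →+* ℂ, ‖σ (f.coeff i)‖ ≤ R) →
      f ∈ S := by
  sorry

/-- **G7'**: a bound of the coefficients of the characteristic polynomial in terms of the entries -/
theorem charpoly_bdd (d : ℕ) (r : ℝ) : ∃ R : ℝ, ∀ M : Matrix (Fin d) (Fin d) ℂ,
    (∀ i j, ‖M i j‖ ≤ r) → ∀ k, ‖((M.charpoly) ^ d).coeff k‖ ≤ R := by
  sorry

/-- **G7''**: integral matrices have integral characteristic polynomials -/
theorem charpoly_int {F : Type} [NormedField F] (hF : ∀ x y : F, ‖x + y‖ ≤ max ‖x‖ ‖y‖)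
    {ι : Type} [Fintype ι] [DecidableEq ι] (M : Matrix ι ι F) (hM : ∀ i j, ‖M i j‖ ≤ 1) (n : ℕ) :
    (∀ k, ‖((M.charpoly) ^ n).coeff k‖ ≤ 1) ∧ ‖M.trace‖ ≤ 1 := by
  sorry

end Pool.Agent.Helper47.BR
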