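import Pool.Agent.Helper47.BR.Defs
import Pool.Agent.Helper47.BR.St.BC

/-!
# BR, piece G8
Representations over `ℂ`: `ℂ ⊗ D` is central simple over an algebraically closed field; conjugate embeddings.
-/

set_option autoImplicit false

namespace Pool.Agent.Helper47.BR

open NumberField Polynomial Pool.Agent.Helper4.CB Pool.Agent.Helper69.CB Pool.Agent.Helper65.CL
  TensorProduct

/-- **G8** -/
theorem exists_rep_complex {L D : Type} [Field L] [NumberField L] (hL : IsTotallyComplex L)
    [Ring D] [Algebra L D] {d : ℕ} (hD : CS L D d) :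
    ∃ ρ : ∀ _ : L →+* ℂ, D →+* Matrix (Fin d) (Fin d) ℂ,
      (∀ σ c, ρ σ (algebraMap L D c) = Matrix.scalar (Fin d) (σ c)) ∧
      ∀ σ x i j, ρ (ComplexEmbedding.conjugate σ) x i j = (starRingEnd ℂ) (ρ σ x i j) := by
  sorry

end Pool.Agent.Helper47.BR
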