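import Pool.Agent.Helper47.BR.Defs
import Pool.Agent.Helper47.BR.St.BC
import Pool.Agent.Helper47.BR.St.G1
import Pool.Agent.Helper47.BR.St.G2
import Pool.Agent.Helper47.BR.St.G3
import Pool.Agent.Helper47.BR.St.G4
import Pool.Agent.Helper47.BR.St.G5
import Pool.Agent.Helper47.BR.St.G6
import Pool.Agent.Helper47.BR.St.G7
import Pool.Agent.Helper47.BR.St.G8

/-!
# BR, piece ENG
ENGINE: `b`, `B` (G3), `ρ w` for all `w`, scale (G3b); `Φ w = cm (ρ w) b` for `w | B`; lattice = inf of the
`LatW`, index ≤ ∏ ‖det Φ w‖ (G4); `Ψ σ` = coordinates of `ρ σ (b j)` with the entry `(0, 0)` replaced by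
the trace (same determinant); `det ^ 2` identities (G2) and the product formula (G6) for `(tm b).det` and
`d`: `∏_(w | B) ‖det Φ w‖ * ∏_σ ‖det Ψ σ‖ = 1` (the factors `d ^ (d ^ 2)` cancel by the product formula for
`d`); `r (0, 0) = 1 / (2 d)`, other `r = ρ` large. `z = ∑ y_j b_j`; charpoly (G1) integral at `w | B` by
`ρ w z` integral, outside `B` by the structure constants; trace / d is integral and less than one:
zero (G6'); so `z` is not in `L`.
-/

set_option autoImplicit false

namespace Pool.Agent.Helper47.BR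

open NumberField Polynomial Pool.Agent.Helper4.CB Pool.Agent.Helper69.CB Pool.Agent.Helper65.CL
  TensorProduct

/-- **ENG** -/
theorem engine (L : Type) [Field L] [NumberField L] (hL : IsTotallyComplex L) (d : ℕ)
    (hd : 2 ≤ d) : ∃ S : Finset L[X], ∀ (D : Type) [Ring D] [Algebra L D], CS L D d →
      (∀ w : Pl L, Rep L D (Cw L w) d) →
      ∃ z : D, (∀ c : L, z ≠ algebraMap L D c) ∧ ∃ f ∈ S, f.Monic ∧ aeval z f = 0 := by
  sorry

end Pool.Agent.Helper47.BR
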