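import Pool.Agent.Helper47.BR.Defs

/-!
# BR, piece REPM
`←`: `Matrix.map`, `Matrix.compRingEquiv` / reindexing of `Fin r × Fin d`. `→`: the matrix unit
`e 0 0` goes to an idempotent of rank `d` (the `e i i` are conjugate, sum 1), its range is an
`F`-space of dimension `d` on which `D` acts by `x ↦ x * e 0 0`.
-/

set_option autoImplicit false

namespace Pool.Agent.Helper47.BR

open NumberField Polynomial Pool.Agent.Helper4.CB Pool.Agent.Helper69.CB Pool.Agent.Helper65.CL
  TensorProduct

/-- **REPM** -/
theorem rep_matrix_iff {K D F : Type} [Field K] [DivisionRing D] [Algebra K D] [Field F]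
    [Algebra K F] {d r : ℕ} (hr : 1 ≤ r) :
    Rep K (Matrix (Fin r) (Fin r) D) F (r * d) ↔ Rep K D F d := by
  sorry

end Pool.Agent.Helper47.BR
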