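import Pool.Agent.Helper47.BR.Defs

/-!
# BR, piece WED
Mathlib: `IsSimpleRing.exists_algEquiv_matrix_divisionRing_finite`; centre and dimension.
-/

set_option autoImplicit false

namespace Pool.Agent.Helper47.BR

open NumberField Polynomial Pool.Agent.Helper4.CB Pool.Agent.Helper69.CB Pool.Agent.Helper65.CL
  TensorProduct

/-- **WED** -/
theorem wedderburn {K A : Type} [Field K] [Ring A] [Algebra K A] {m : ℕ} (hA : CS K A m) :
    ∃ (r d : ℕ) (D : Type) (_ : DivisionRing D) (_ : Algebra K D), CS K D d ∧ 1 ≤ r ∧ m = r * d ∧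
      Nonempty (A ≃ₐ[K] Matrix (Fin r) (Fin r) D) := by
  sorry

end Pool.Agent.Helper47.BR
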