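import Pool.Agent.Helper47.BR.Defs
import Pool.Agent.Helper47.BR.St.BC
import Pool.Agent.Helper47.BR.St.WED
import Pool.Agent.Helper47.BR.St.REPM
import Pool.Agent.Helper47.BR.St.CMP
import Pool.Agent.Helper47.BR.St.ENG

/-!
# BR, piece ITER
Induction on `m`. `S_k` (`2 ≤ k ≤ m`) from ENG, `L₁` = splitting field over `L` of the product of all
their nonzero elements. `D` division of degree `k ≥ 2`: `z` not in `L` is a root of `f ∈ S_k`, `f` splits over
`L₁`, so `L₁ ⊗ D` has zero divisors, is `M_r(D₁)` with `r ≥ 2` (WED); `D₁` has degree less than `m` and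
representations at all places of `L₁` (CMP, REPM, BC).
-/

set_option autoImplicit false

namespace Pool.Agent.Helper47.BR

open NumberField Polynomial Pool.Agent.Helper4.CB Pool.Agent.Helper69.CB Pool.Agent.Helper65.CL
  TensorProduct

/-- **ITER** -/
theorem split_all (m : ℕ) : ∀ (L : Type) [Field L] [NumberField L], IsTotallyComplex L →
    ∃ (L' : Type) (_ : Field L') (_ : NumberField L') (_ : Algebra L L'),
      ∀ (D : Type) [DivisionRing D] [Algebra L D] (k : ℕ), k ≤ m → CS L D k →
        (∀ w : Pl L, Rep L D (Cw L w) k) → Rep L D L' k := by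
  sorry

end Pool.Agent.Helper47.BR
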