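import Pool.Agent.Helper47.BR.Defs

/-!
# BR, piece LF0
Mathlib: `NumberField.Completion.FinitePlace` (`NormedField`, `‖.‖`), `adicCompletionIntegers` is a
complete discrete valuation ring, residue field `𝓞 K / p`.
-/

set_option autoImplicit false

namespace Pool.Agent.Helper47.BR

open NumberField Polynomial Pool.Agent.Helper4.CB Pool.Agent.Helper69.CB Pool.Agent.Helper65.CL
  TensorProduct

/-- **LF0** -/
theorem lf_completion (K : Type) [Field K] [NumberField K] (p : Pl K) : LF (Cw K p) (nm p) := by
  sorry

/-- **LF0'** -/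
theorem nw_eq (K : Type) [Field K] [NumberField K] (p : Pl K) (x : K) (hx : x ≠ 0) :
    nw p x ≤ 1 ↔ x ∈ Oint p := by
  sorry

end Pool.Agent.Helper47.BR
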