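import Pool.Agent.Helper47.BR.Defs

/-!
# BR, piece LO1
`N x = |N_(D/F) x| ^ (1 / d ^ 2)`, `N_(D/F) x` the determinant of the left multiplication. Ultrametric:
`N x ≤ 1` implies `N (1 + x) ≤ 1` inside the commutative field `F[x]` (Mathlib: `spectralNorm`,
`spectralNorm_eq_norm_coeff_zero_rpow`).
-/

set_option autoImplicit false

namespace Pool.Agent.Helper47.BR

open NumberField Polynomial Pool.Agent.Helper4.CB Pool.Agent.Helper69.CB Pool.Agent.Helper65.CL
  TensorProduct

/-- **LO1** -/
theorem exists_dn {F : Type} [NormedField F] {q : ℕ} (hF : LF F q) {D : Type} [DivisionRing D]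
    [Algebra F D] {d : ℕ} (hD : CS F D d) : ∃ N : D → ℝ, DN (F := F) q N := by
  sorry

end Pool.Agent.Helper47.BR
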