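import Pool.Agent.Helper47.BR.Defs

/-!
# BR, piece LO2
The value group is discrete and contains the one of `F`.
-/

set_option autoImplicit false

namespace Pool.Agent.Helper47.BR

open NumberField Polynomial Pool.Agent.Helper4.CB Pool.Agent.Helper69.CB Pool.Agent.Helper65.CL
  TensorProduct

/-- **LO2**: a prime element `t` of `D`, ramification index `e` -/
theorem exists_prime {F : Type} [NormedField F] {q : ℕ} (hF : LF F q) {D : Type} [DivisionRing D]
    [Algebra F D] {N : D → ℝ} (hN : DN (F := F) q N) : ∃ (e : ℕ) (t : D), 1 ≤ e ∧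
      N t ^ e = (q : ℝ)⁻¹ ∧ ∀ x, x ≠ 0 → ∃ n : ℤ, N x = N t ^ n := by
  sorry

end Pool.Agent.Helper47.BR
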