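import Pool.Agent.Helper47.BR.Defs

/-!
# BR, piece LO3
The residue ring of `D` is a finite division ring, so a field (Wedderburn, in Mathlib), a finite
extension of the residue field of `F`; `a` is a generator of its multiplicative group, lifted. Finite:
elements of `D` with independent residues are independent over `F`.
-/

set_option autoImplicit false

namespace Pool.Agent.Helper47.BR

open NumberField Polynomial Pool.Agent.Helper4.CB Pool.Agent.Helper69.CB Pool.Agent.Helper65.CL
  TensorProduct

/-- **LO3**: the residue field of `D` has `q ^ f` elements; `a` generates its multiplicative group -/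
theorem exists_residue {F : Type} [NormedField F] {q : ℕ} (hF : LF F q) {D : Type} [DivisionRing D]
    [Algebra F D] {d : ℕ} (hD : CS F D d) {N : D → ℝ} (hN : DN (F := F) q N) :
    ∃ (f : ℕ) (a : D), 1 ≤ f ∧ N a = 1 ∧ N (a ^ (q ^ f - 1) - 1) < 1 ∧
      (∀ x, N x ≤ 1 → N x < 1 ∨ ∃ n < q ^ f - 1, N (x - a ^ n) < 1) ∧
      ∀ n, n < q ^ f - 1 → n ≠ 0 → N (a ^ n - 1) = 1 := by
  sorry

end Pool.Agent.Helper47.BR
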