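import Pool.Agent.Helper47.BR.Defs

/-!
# BR, piece LO4
Teichmueller: `a ^ (q ^ (f n))` converges in the complete commutative field `F[a]` (a finite dimensional
`F`-space) to `z` with `z ^ (q ^ f) = z`, `N (z - a) < 1`. Its residues `1, z, .., z ^ (f - 1)` are independent
over the residue field of `F` (the residue of `z` generates the field with `q ^ f` elements), so they
are independent over `F`.
-/

set_option autoImplicit false

namespace Pool.Agent.Helper47.BR

open NumberField Polynomial Pool.Agent.Helper4.CB Pool.Agent.Helper69.CB Pool.Agent.Helper65.CL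
  TensorProduct

/-- **LO4** -/
theorem exists_teich {F : Type} [NormedField F] {q : ℕ} (hF : LF F q) {D : Type} [DivisionRing D]
    [Algebra F D] {d : ℕ} (hD : CS F D d) {N : D → ℝ} (hN : DN (F := F) q N) {f : ℕ} (hf : 1 ≤ f)
    {a : D} (ha : N a = 1) (h1 : N (a ^ (q ^ f - 1) - 1) < 1)
    (h2 : ∀ x, N x ≤ 1 → N x < 1 ∨ ∃ n < q ^ f - 1, N (x - a ^ n) < 1)
    (h3 : ∀ n, n < q ^ f - 1 → n ≠ 0 → N (a ^ n - 1) = 1) :
    ∃ z : D, z ^ (q ^ f - 1) = 1 ∧ f ≤ (minpoly F z).natDegree := by
  sorry

end Pool.Agent.Helper47.BR
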