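import Pool.Agent.Helper47.BR.Defs

/-!
# BR, piece LO5
`1, t, .., t ^ (e - 1)` have different absolute values modulo the value group `q ^ ℤ` of `F`.
-/

set_option autoImplicit false

namespace Pool.Agent.Helper47.BR

open NumberField Polynomial Pool.Agent.Helper4.CB Pool.Agent.Helper69.CB Pool.Agent.Helper65.CL
  TensorProduct

/-- **LO5** -/
theorem ram_le {F : Type} [NormedField F] {q : ℕ} (hF : LF F q) {D : Type} [DivisionRing D]
    [Algebra F D] {d : ℕ} (hD : CS F D d) {N : D → ℝ} (hN : DN (F := F) q N) {e : ℕ} {t : D}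
    (he : 1 ≤ e) (ht : N t ^ e = (q : ℝ)⁻¹) : e ≤ (minpoly F t).natDegree := by
  sorry

end Pool.Agent.Helper47.BR
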