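import Pool.Agent.Helper47.BR.Defs

/-!
# BR, piece LO6
The `O_F`-module generated by the `z ^ i * t ^ j` (`i < f`, `j < e`) is everything with `N x ≤ 1`:
successive approximation, completeness of `F`; all norms on the finite dimensional space `D` are
equivalent.  (`h` says: the residue field is generated by `z` over the residue field of `F`.)
-/

set_option autoImplicit false

namespace Pool.Agent.Helper47.BR

open NumberField Polynomial Pool.Agent.Helper4.CB Pool.Agent.Helper69.CB Pool.Agent.Helper65.CL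
  TensorProduct

/-- **LO6**: `d ^ 2 ≤ e * f` -/
theorem dim_le {F : Type} [NormedField F] {q : ℕ} (hF : LF F q) {D : Type} [DivisionRing D]
    [Algebra F D] {d : ℕ} (hD : CS F D d) {N : D → ℝ} (hN : DN (F := F) q N) {e f : ℕ} {t a : D}
    (he : 1 ≤ e) (ht : N t ^ e = (q : ℝ)⁻¹) (ht2 : ∀ x, x ≠ 0 → ∃ n : ℤ, N x = N t ^ n)
    (hf : 1 ≤ f) (ha : N a = 1) (h1 : N (a ^ (q ^ f - 1) - 1) < 1)
    (h2 : ∀ x, N x ≤ 1 → N x < 1 ∨ ∃ n < q ^ f - 1, N (x - a ^ n) < 1)
    (h3 : ∀ n, n < q ^ f - 1 → n ≠ 0 → N (a ^ n - 1) = 1) : d ^ 2 ≤ e * f := by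
  sorry

end Pool.Agent.Helper47.BR
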