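import Pool.Agent.Helper47.BR.Defs

/-!
# BR, piece LO7
Teichmueller in the complete field `F`: the residue field has `q` elements.
-/

set_option autoImplicit false

namespace Pool.Agent.Helper47.BR

open NumberField Polynomial Pool.Agent.Helper4.CB Pool.Agent.Helper69.CB Pool.Agent.Helper65.CL
  TensorProduct

/-- **LO7** -/
theorem exists_root_of_unity {F : Type} [NormedField F] {q : ℕ} (hF : LF F q) :
    ∃ z : F, IsPrimitiveRoot z (q - 1) := by
  sorry

end Pool.Agent.Helper47.BR
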