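import Pool.Agent.Helper47.BR.Defs

/-!
# BR, piece SUBF
`D` is a module over `E = F[x]` (on the right); `D ⊗ E → End` is injective (or: density), so
`d ^ 2 * e ≤ (d ^ 2 / e) ^ 2 * e`. SUB2: `D → End_E(D) = M_d(E) → M_d(F')`.
-/

set_option autoImplicit false

namespace Pool.Agent.Helper47.BR

open NumberField Polynomial Pool.Agent.Helper4.CB Pool.Agent.Helper69.CB Pool.Agent.Helper65.CL
  TensorProduct

/-- **SUB1**: commutative subfields of a central division algebra of degree `d` have degree at most
`d` -/
theorem natDegree_minpoly_le {F D : Type} [Field F] [DivisionRing D] [Algebra F D] {d : ℕ}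
    (hD : CS F D d) (x : D) : (minpoly F x).natDegree ≤ d := by
  sorry

/-- **SUB2**: if `F[x]` has degree `d`, then `D` is split by every field which contains it -/
theorem rep_of_root {F D F' : Type} [Field F] [DivisionRing D] [Algebra F D] {d : ℕ}
    (hD : CS F D d) (x : D) (hx : (minpoly F x).natDegree = d) [Field F'] [Algebra F F'] (y : F')
    (hy : aeval y (minpoly F x) = 0) : Rep F D F' d := by
  sorry

end Pool.Agent.Helper47.BR
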