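import Pool.Agent.Helper47.BR.Defs
import Pool.Agent.Helper47.BR.St.LO1
import Pool.Agent.Helper47.BR.St.LO2
import Pool.Agent.Helper47.BR.St.LO3
import Pool.Agent.Helper47.BR.St.LO4
import Pool.Agent.Helper47.BR.St.LO5
import Pool.Agent.Helper47.BR.St.LO6
import Pool.Agent.Helper47.BR.St.LO7
import Pool.Agent.Helper47.BR.St.SUBF
import Pool.Agent.Helper47.BR.St.WED
import Pool.Agent.Helper47.BR.St.REPM
import Pool.Agent.Helper47.BR.St.BC

/-!
# BR, piece LOC
Assembly: LO1 - LO7, SUBF, WED, REPM, BC.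
-/

set_option autoImplicit false

namespace Pool.Agent.Helper47.BR

open NumberField Polynomial Pool.Agent.Helper4.CB Pool.Agent.Helper69.CB Pool.Agent.Helper65.CL
  TensorProduct

/-- an unramified element of degree `d` -/
theorem exists_unramified {F : Type} [NormedField F] {q : ℕ} (hF : LF F q) {D : Type}
    [DivisionRing D] [Algebra F D] {d : ℕ} (hD : CS F D d) :
    ∃ z : D, z ^ (q ^ d - 1) = 1 ∧ (minpoly F z).natDegree = d := by
  obtain ⟨N, hN⟩ := exists_dn hF hD
  obtain ⟨e, t, he, ht, ht2⟩ := exists_prime hF hN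
  obtain ⟨f, a, hf, ha, h1, h2, h3⟩ := exists_residue hF hD hN
  obtain ⟨z, hz, hzf⟩ := exists_teich hF hD hN hf ha h1 h2 h3
  have h4 := natDegree_minpoly_le hD z
  have h5 := (ram_le hF hD hN he ht).trans (natDegree_minpoly_le hD t)
  have h6 := dim_le hF hD hN he ht ht2 hf ha h1 h2 h3
  have hd := hD.pos
  have hfd : f = d := by
    by_contra hne
    have h7 : f < d := by omega
    have h8 : e * f < d * d := by
      calc e * f ≤ d * f := Nat.mul_le_mul_right _ h5
        _ < d * d := Nat.mul_lt_mul_of_pos_left h7 hd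
    nlinarith
  subst hfd
  exact ⟨z, hz, le_antisymm h4 hzf⟩

/-- **LOC**: local splitting -/
theorem local_split {F F' : Type} [NormedField F] [NormedField F'] [Algebra F F'] {q q' : ℕ}
    (hF : LF F q) (hF' : LF F' q') {A : Type} [Ring A] [Algebra F A] {m : ℕ} (hA : CS F A m)
    {f : ℕ} (hq : q' = q ^ f) (hmf : m ∣ f) (hf : f ≠ 0) : Rep F A F' m := by
  sorry

end Pool.Agent.Helper47.BR
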