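import Pool.Agent.Helper47.BR.Defs
import Pool.Agent.Helper47.BR.St.BC
import Pool.Agent.Helper47.BR.St.WED
import Pool.Agent.Helper47.BR.St.REPM
import Pool.Agent.Helper47.BR.St.CMP
import Pool.Agent.Helper47.BR.St.LF0
import Pool.Agent.Helper47.BR.St.LOC
import Pool.Agent.Helper47.BR.St.FLD
import Pool.Agent.Helper47.BR.St.ITER

/-!
# BR, piece ALG
FLD, LOC at the good places, CMP, WED, REPM, ITER.
-/

set_option autoImplicit false

namespace Pool.Agent.Helper47.BR

open NumberField Polynomial Pool.Agent.Helper4.CB Pool.Agent.Helper69.CB Pool.Agent.Helper65.CL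
  TensorProduct

/-- **ALG** -/
theorem alg_br (K : Type) [Field K] [NumberField K] (m J : ℕ) (hm : 1 ≤ m) (hJ : 2 ≤ J)
    (hζ : ∀ l : ℕ, l.Prime → l ∣ m → ∃ ζ : K, IsPrimitiveRoot ζ l)
    (hi : 2 ∣ m → ∃ i : K, i ^ 2 = -1) :
    ∃ (L' : Type) (_ : Field L') (_ : NumberField L') (_ : Algebra K L'),
      ∀ (A : Type) [Ring A] [Algebra K A], CS K A m →
        (∀ p : Pl K, Bad m.primeFactors J p → Rep K A (Cw K p) m) → Rep K A L' m := by
  sorry

end Pool.Agent.Helper47.BR
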