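import Pool.Agent.Helper47.BR.Defs

/-!
# BR, piece AZ1
Dual basis of the finite projective module `A`; the endomorphisms `x ↦ f_i(x) g_j` are in the image
of `A ⊗ Aᵐᵒᵖ` (`IsAzumaya.bij`); collect all coefficients.
-/

set_option autoImplicit false

namespace Pool.Agent.Helper47.BR

open NumberField Polynomial Pool.Agent.Helper4.CB Pool.Agent.Helper69.CB Pool.Agent.Helper65.CL
  TensorProduct

/-- **AZ1** -/
theorem azInt_of_azumaya {K R A : Type} [Field K] [CommRing R] [Algebra K R] [Ring A]
    [Algebra R A] (hA : IsAzumaya R A) : ∃ G : Finset R, ∀ (M : Type) [Field M] [Algebra R M]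
      (O : Subring M), (∀ g ∈ G, algebraMap R M g ∈ O) → AzInt O (M ⊗[R] A) := by
  sorry

end Pool.Agent.Helper47.BR
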