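import Pool.Agent.Helper47.BR.Defs

/-!
# BR, piece AZ2
`x ↦ f_i(x) g_j` for all `i, j`: every nonzero ideal is everything, the centre is `K`.
-/

set_option autoImplicit false

namespace Pool.Agent.Helper47.BR

open NumberField Polynomial Pool.Agent.Helper4.CB Pool.Agent.Helper69.CB Pool.Agent.Helper65.CL
  TensorProduct

/-- **AZ2** -/
theorem cs_of_azInt {K A : Type} [Field K] [Ring A] [Algebra K A] {m : ℕ} (hm : 1 ≤ m)
    (hdim : Module.finrank K A = m ^ 2) {O : Subring K} (h : AzInt O A) : CS K A m := by
  sorry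

end Pool.Agent.Helper47.BR
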