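import Pool.Agent.Helper47.BR.Defs
import Pool.Agent.Helper47.BR.St.BC
import Pool.Agent.Helper47.BR.St.LF0
import Pool.Agent.Helper47.BR.St.AZ2

/-!
# BR, piece AZ3
`Λ = ∑ O_p g_i` is a free `O_p`-module, `Λ / p` is central simple over the finite residue field (as in
AZ2), so a matrix ring (Wedderburn); a rank one idempotent lifts to the completion
(`e ↦ 3 e ^ 2 - 2 e ^ 3`); `(K_p ⊗ A) e` has dimension `m`.
-/

set_option autoImplicit false

namespace Pool.Agent.Helper47.BR

open NumberField Polynomial Pool.Agent.Helper4.CB Pool.Agent.Helper69.CB Pool.Agent.Helper65.CL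
  TensorProduct

/-- **AZ3** -/
theorem rep_of_azInt (K : Type) [Field K] [NumberField K] (p : Pl K) {A : Type} [Ring A]
    [Algebra K A] {m : ℕ} (hA : CS K A m) (h : AzInt (Oint p) A) : Rep K A (Cw K p) m := by
  sorry

end Pool.Agent.Helper47.BR
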