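import Pool.Agent.Helper47.BR.Defs

/-!
# BR, piece END
Generic fibre: over a finite separable extension of the fraction field all `A i` become matrix
rings; spread out with `δ`. All representations of `M ⊗ A i` over `L'` are conjugate: the points are the
`L'`-points of a product of `PGL`, they are dense.
-/

set_option autoImplicit false

namespace Pool.Agent.Helper47.BR

open NumberField Polynomial Pool.Agent.Helper4.CB Pool.Agent.Helper69.CB Pool.Agent.Helper65.CL
  TensorProduct

/-- **END** -/
theorem end_main (K : Type) [Field K] [CharZero K] (R : Type) [CommRing R] [IsDomain R]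
    [Algebra K R] {r : ℕ} (m : Fin r → ℕ) (hm : ∀ i, 1 ≤ m i) (A : Fin r → Type)
    [∀ i, Ring (A i)] [∀ i, Algebra R (A i)] (hA : ∀ i, IsAzumaya R (A i))
    (hrk : ∀ i, ∀ (F : Type) [Field F] [Algebra R F], Module.finrank F (F ⊗[R] A i) = m i ^ 2) :
    ∃ δ : R, δ ≠ 0 ∧ ∀ F : HRing (R := R) m A (Localization.Away δ), ¬ IsNilpotent F →
      ∃ f : R, f ≠ 0 ∧ ∀ (L : Type) [Field L] [Algebra K L] [Algebra R L] [IsScalarTower K R L],
        algebraMap R L f ≠ 0 → (∀ i, Nonempty (A i →ₐ[R] Matrix (Fin (m i)) (Fin (m i)) L)) →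
        ∃ ψ : HRing (R := R) m A (Localization.Away δ) →ₐ[K] L, ψ F ≠ 0 := by
  sorry

end Pool.Agent.Helper47.BR
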